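import Mathlib
import Pool.Agent.R449.SP.Sil
import Pool.Agent.K6.H40.PairF

/-!
# Prime coordinates of almost all real solutions: the first question yes, the second question no

The integer solutions of `p ^ 2 - 2 r ^ 2 = -1` are the members of index `n = 2 k + 1` of one sequence `(X_n, Y_n)` with
`X_(n+1) = X_n + 2 Y_n` and `Y_(n+1) = X_n + Y_n`. The real sequences with this recursion are
`X_n = (β (1 + √2) ^ n + B (1 - √2) ^ n) / 2`, `Y_n = (β (1 + √2) ^ n - B (1 - √2) ^ n) / (2 √2)`, with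
`X_n ^ 2 - 2 Y_n ^ 2 = (-1) ^ n β B`; the integer solutions belong to `β = B = 1`. For `l ≥ 1` let `om l m` be the number of the
prime factors of `m` larger than `l`, with multiplicity. If `l ≥ 5` is prime then all prime factors of the integers `X_l`,
`Y_l` of the case `β = B = 1` are larger than `l`, so that `X_l` is prime if and only if `om l X_l = 1`. (For other `l` both
are composite.)

We prove that for every `B` and almost every `β > 0` the answers to the two questions of the problem are different: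

* there are infinitely many primes `l` with `om l ⌊X_l⌋ = 1`, and infinitely many with `om l ⌊Y_l⌋ = 1`;
* there are only finitely many `l` with `om l ⌊X_l⌋ = om l ⌊Y_l⌋ = 1`. Much more is true: for each `b < 1`, with finitely many
  exceptions, if one of the numbers `om l ⌊X_l⌋`, `om l ⌊Y_l⌋` is `1` then the other one is larger than `b log l` (the normal
  order of both is `log l`); and whenever `c (1 - log c) + c' (1 - log c') < 1`, `c, c' ≤ 1`, for all large `l` we have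
  `om l ⌊X_l⌋ > c log l` or `om l ⌊Y_l⌋ > c' log l`. For example one of the two is larger than `0.18 log l`.

The measure of the exceptional set is also estimated: for `β = e ^ t`, `t` in an interval of length one, the measure of the
`t` such that `om l ⌊X_l⌋ ≤ c log l` and `om l ⌊Y_l⌋ ≤ c' log l` for some `l ≥ N` is at most `K N ^ (-η)`, with some `η > 0`.

Proof. The first statement is the starting theorem `Pool.Agent.H19P.pt_unit` (`R449/SP/Sil`). For the second let `z` be a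
small power of `(1 + √2) ^ (l / log l)` and write `⌊X_l⌋ = a m`, `⌊Y_l⌋ = b n`, where `a`, `b` are the parts with primes in
`(l, z]`. The measure of the `β` with given `a`, `b` is estimated by Selberg's sieve, with a continuous majorant of the
multiples of `a` whose cofactors have no prime factors in `(l, z]`; the correlations of the majorants of the two coordinates
are controlled by `|a - b √2| (a + b √2) ≥ 1` (tools of `W66`). The sum over `a` and `b` is estimated by Rankin's method,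
which gives `O((log l) ^ 4 l ^ (c (1 - log c) + c' (1 - log c') - 2))` for the measure.
-/

set_option autoImplicit false

namespace Pool.Agent.Results.MP_927e73_nt.BothCoordinates

open Filter Topology MeasureTheory

/-- first coordinates of the real solutions -/
noncomputable def X (β B : ℝ) (n : ℕ) : ℝ :=
  (β * (1 + Real.sqrt 2) ^ n + B * (1 - Real.sqrt 2) ^ n) / 2

/-- second coordinates of the real solutions -/
noncomputable def Y (β B : ℝ) (n : ℕ) : ℝ :=
  (β * (1 + Real.sqrt 2) ^ n - B * (1 - Real.sqrt 2) ^ n) / (2 * Real.sqrt 2)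

/-- the number of the prime factors of `m` larger than `l`, counted with multiplicity -/
def om (l m : ℕ) : ℕ := (m.primeFactorsList.filter (fun r => l < r)).length

/-- the positive integer solutions of `p ^ 2 - 2 r ^ 2 = -1` in increasing order -/
def sol : ℕ → ℕ × ℕ
  | 0 => (1, 1)
  | (k + 1) => (3 * (sol k).1 + 4 * (sol k).2, 2 * (sol k).1 + 3 * (sol k).2)

lemma sol_eq (k : ℕ) : sol k = Pool.Agent.R449.SP.sol k := by
  induction k with
  | zero => rfl
  | succ k ih => rw [sol, Pool.Agent.R449.SP.sol, ih]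

/-- the integers with one large prime factor -/
lemma om_eq_one {l m : ℕ} (h : (Pool.Agent.H305R2.roughPart l m).Prime) : om l m = 1 := by
  unfold Pool.Agent.H305R2.roughPart at h
  set L := m.primeFactorsList.filter (fun r => l < r) with hL
  have hp : ∀ q ∈ L, q.Prime := fun q hq =>
    Nat.prime_of_mem_primeFactorsList (List.mem_of_mem_filter hq)
  have h1 := (Nat.primeFactorsList_unique rfl hp).length_eq
  rw [Nat.primeFactorsList_prime h] at h1
  exact h1

/-- rough numbers are their own rough part -/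
lemma om_of_rough {l m : ℕ} (h : Pool.Agent.H305R2.roughPart l m = m) :
    om l m = ArithmeticFunction.cardFactors m := by
  unfold Pool.Agent.H305R2.roughPart at h
  rw [ArithmeticFunction.cardFactors_apply]
  unfold om
  set L := m.primeFactorsList.filter (fun r => l < r) with hL
  have hp : ∀ q ∈ L, q.Prime := fun q hq =>
    Nat.prime_of_mem_primeFactorsList (List.mem_of_mem_filter hq)
  exact (Nat.primeFactorsList_unique h hp).length_eq

lemma dio (a b : ℕ) (ha : 1 ≤ a) (hb : 1 ≤ b) : 1 ≤ |(a : ℝ) - b * Real.sqrt 2| * (2 * (a + b)) := by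
  have h2 := Pool.Agent.R449.SP.s2_sq
  have hs := Pool.Agent.R449.SP.s2_pos
  have hs2 := Pool.Agent.R449.SP.s2_lt
  have ha' : (1 : ℝ) ≤ a := by exact_mod_cast ha
  have hb' : (1 : ℝ) ≤ b := by exact_mod_cast hb
  have hne : ((a : ℤ) ^ 2 - 2 * (b : ℤ) ^ 2) ≠ 0 := by
    intro h
    have hirr := irrational_sqrt_two
    apply hirr
    refine ⟨(a : ℚ) / b, ?_⟩
    have h3 : ((a : ℝ) / b) ^ 2 = 2 := by
      have h4 : ((a : ℝ)) ^ 2 = 2 * (b : ℝ) ^ 2 := by
        have h5 : ((a : ℤ)) ^ 2 = 2 * (b : ℤ) ^ 2 := by linarith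
        exact_mod_cast h5
      rw [div_pow, h4]
      field_simp
    have h4 : (0 : ℝ) ≤ (a : ℝ) / b := by positivity
    push_cast
    rw [← h3, Real.sqrt_sq h4]
  have h1 : (1 : ℝ) ≤ |(a : ℝ) ^ 2 - 2 * (b : ℝ) ^ 2| := by
    have h3 : (1 : ℤ) ≤ |(a : ℤ) ^ 2 - 2 * (b : ℤ) ^ 2| := Int.one_le_abs hne
    have h4 : ((1 : ℤ) : ℝ) ≤ ((|(a : ℤ) ^ 2 - 2 * (b : ℤ) ^ 2| : ℤ) : ℝ) := by exact_mod_cast h3
    push_cast at h4
    exact h4
  have h3 : |(a : ℝ) ^ 2 - 2 * (b : ℝ) ^ 2| = |(a : ℝ) - b * Real.sqrt 2| * (a + b * Real.sqrt 2) := by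
    have h4 : (a : ℝ) ^ 2 - 2 * (b : ℝ) ^ 2 = ((a : ℝ) - b * Real.sqrt 2) * (a + b * Real.sqrt 2) := by
      linear_combination ((b : ℝ) ^ 2) * h2
    rw [h4, abs_mul, abs_of_pos (show (0 : ℝ) < a + b * Real.sqrt 2 by positivity)]
  rw [h3] at h1
  refine h1.trans (mul_le_mul_of_nonneg_left ?_ (abs_nonneg _))
  nlinarith

lemma conj_le (l : ℕ) : |(1 - Real.sqrt 2) ^ l| ≤ 1 := by
  have hlt := Pool.Agent.R449.SP.one_lt_s2
  have hlt2 := Pool.Agent.R449.SP.s2_lt
  rw [abs_pow]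
  exact pow_le_one₀ (abs_nonneg _) (by rw [abs_le]; constructor <;> linarith)

/-- the conjugate part of the second coordinate -/
noncomputable def gg (B : ℝ) (l : ℕ) : ℝ := -(B / (2 * Real.sqrt 2)) * (1 - Real.sqrt 2) ^ l

/-- the conjugate part of the first coordinate minus `√2` times the second one -/
noncomputable def kk (B : ℝ) (l : ℕ) : ℝ := B * (1 - Real.sqrt 2) ^ l

lemma gg_le (B : ℝ) (l : ℕ) : |gg B l| ≤ |B| * (1 : ℝ) ^ l := by
  have hs := Pool.Agent.R449.SP.s2_pos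
  have hlt := Pool.Agent.R449.SP.one_lt_s2
  unfold gg
  rw [one_pow, mul_one, abs_mul, abs_neg, abs_div, abs_of_pos (show 0 < 2 * Real.sqrt 2 by positivity)]
  have h3 : |B| / (2 * Real.sqrt 2) ≤ |B| := div_le_self (abs_nonneg B) (by linarith)
  calc |B| / (2 * Real.sqrt 2) * |(1 - Real.sqrt 2) ^ l| ≤ |B| * 1 :=
        mul_le_mul h3 (conj_le l) (abs_nonneg _) (abs_nonneg _)
    _ = |B| := mul_one _

lemma kk_le (B : ℝ) (l : ℕ) : |kk B l| ≤ |B| * (1 : ℝ) ^ l := by
  unfold kk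
  rw [one_pow, abs_mul]
  exact mul_le_mul_of_nonneg_left (conj_le l) (abs_nonneg _)

lemma y_eq (B β : ℝ) (l : ℕ) : 1 / (2 * Real.sqrt 2) * β * (1 + Real.sqrt 2) ^ l + gg B l = Y β B l := by
  unfold Y gg
  ring

lemma x_eq (B β : ℝ) (l : ℕ) : Real.sqrt 2 * Y β B l + kk B l = X β B l := by
  have hs := Pool.Agent.R449.SP.s2_pos
  unfold X Y kk
  field_simp
  ring

/-- both coordinates -/
theorem both (B c c' : ℝ) (hc0 : 0 < c) (hc1 : c ≤ 1) (hc0' : 0 < c') (hc1' : c' ≤ 1)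
    (hσ : c * (1 - Real.log c) + c' * (1 - Real.log c') < 1) :
    ∀ᵐ β : ℝ, 0 < β → ∀ᶠ l : ℕ in atTop,
      c * Real.log l < om l ⌊X β B l⌋₊ ∨ c' * Real.log l < om l ⌊Y β B l⌋₊ := by
  have hs := Pool.Agent.R449.SP.s2_pos
  have hlt := Pool.Agent.R449.SP.one_lt_s2
  have h := Pool.Agent.R449.SP.ae_scale (c := 1 / (2 * Real.sqrt 2)) (by positivity)
    (Pool.Agent.K6.H40.PairLaw.ae_pair (A := 2) Pool.Agent.R449.SP.one_lt_al hlt.le one_le_two dio hc0' hc1' hc0 hc1
      (by linarith) zero_le_one Pool.Agent.R449.SP.one_lt_al (gg_le B) (kk_le B))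
  filter_upwards [h] with β hβ h0
  filter_upwards [hβ (by positivity)] with l hl
  rw [y_eq, x_eq] at hl
  exact hl.symm

/-- the measure of the exceptional set -/
theorem tail (B c c' b : ℝ) (hc0 : 0 < c) (hc1 : c ≤ 1) (hc0' : 0 < c') (hc1' : c' ≤ 1)
    (hσ : c * (1 - Real.log c) + c' * (1 - Real.log c') < 1) :
    ∃ K η : ℝ, 0 < η ∧ ∀ N : ℕ, 1 ≤ N →
      (volume.restrict (Set.Ioc b (b + 1))).real {t : ℝ | ∃ l : ℕ, N ≤ l ∧
        om l ⌊X (Real.exp t) B l⌋₊ ≤ c * Real.log l ∧ om l ⌊Y (Real.exp t) B l⌋₊ ≤ c' * Real.log l} ≤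
          K * (N : ℝ) ^ (-η) := by
  have hs := Pool.Agent.R449.SP.s2_pos
  have hlt := Pool.Agent.R449.SP.one_lt_s2
  have hal := Pool.Agent.R449.SP.one_lt_al
  have hα0 : 0 < 1 + Real.sqrt 2 := by linarith
  obtain ⟨s, hsd⟩ : ∃ s : ℝ, s = Real.log (2 * Real.sqrt 2) := ⟨_, rfl⟩
  have hes : Real.exp s = 2 * Real.sqrt 2 := by rw [hsd, Real.exp_log (by positivity)]
  have e : ∀ l : ℕ, Real.exp (Real.log (1 + Real.sqrt 2) * l + (b - s)) =
      Real.exp (b - s) * (1 + Real.sqrt 2) ^ l := by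
    intro l
    rw [add_comm, Real.exp_add, mul_comm (Real.log _), Real.exp_nat_mul, Real.exp_log hα0]
  have hg : ∀ᶠ l : ℕ in atTop, 8 * |gg B l| ≤ Real.exp (b - s) * (1 + Real.sqrt 2) ^ l := by
    filter_upwards [Pool.Agent.W66X.pert8 hα0 zero_le_one hal (gg_le B) (b - s) 8] with l hl
    rw [e] at hl
    push_cast at hl
    exact hl
  have hκ : ∀ᶠ l : ℕ in atTop, 8 * |kk B l| ≤ Real.exp (b - s) * (1 + Real.sqrt 2) ^ l := by
    filter_upwards [Pool.Agent.W66X.pert8 hα0 zero_le_one hal (kk_le B) (b - s) 8] with l hl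
    rw [e] at hl
    push_cast at hl
    exact hl
  obtain ⟨K, η, hη, hev⟩ := Pool.Agent.K6.H40.PairLaw.scale_bound (A := 2) hal hlt.le one_le_two dio hc0' hc1' hc0 hc1
    (by linarith) (b - s) hg hκ
  obtain ⟨K', η', hη', htail⟩ := Pool.Agent.K6.H40.PairLaw.tail_union hη hev
  refine ⟨K', η', hη', fun N hN => le_trans (le_of_eq ?_) (htail N hN)⟩
  rw [← Pool.Agent.K6.H40.PairLaw.shift_window s b]
  congr 1
  ext t
  simp only [Set.mem_ofPred_eq]
  refine exists_congr fun l => and_congr_right fun hl => ?_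
  have hl1 : 0 ≤ c * Real.log l := mul_nonneg hc0.le (Real.log_natCast_nonneg l)
  have hl2 : 0 ≤ c' * Real.log l := mul_nonneg hc0'.le (Real.log_natCast_nonneg l)
  have e1 : Real.exp (t - s) * (1 + Real.sqrt 2) ^ l + gg B l = Y (Real.exp t) B l := by
    rw [← y_eq, Real.exp_sub, hes]
    ring
  rw [e1, x_eq, Nat.le_floor_iff hl1, Nat.le_floor_iff hl2]
  exact and_comm

/-- the constants are admissible in an open set -/
lemma rat_near {c ε : ℝ} (hc0 : 0 < c) (hc1 : c < 1) (hε : 0 < ε) :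
    ∃ q : ℚ, c < q ∧ (q : ℝ) ≤ 1 ∧ (q : ℝ) * (1 - Real.log q) < c * (1 - Real.log c) + ε := by
  have hcont : ContinuousAt (fun x : ℝ => x * (1 - Real.log x)) c := by
    have := Real.continuousAt_log hc0.ne'
    fun_prop
  have hev : ∀ᶠ x in 𝓝 c, x * (1 - Real.log x) < c * (1 - Real.log c) + ε :=
    hcont.eventually_lt_const (by linarith)
  obtain ⟨δ, hδ, hball⟩ := Metric.eventually_nhds_iff.1 hev
  obtain ⟨q, hq1, hq2⟩ := exists_rat_btwn (show c < min (c + δ) 1 by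
    rw [lt_min_iff]; exact ⟨by linarith, hc1⟩)
  rw [lt_min_iff] at hq2
  refine ⟨q, hq1, hq2.2.le, hball ?_⟩
  rw [Real.dist_eq, abs_of_pos (by linarith)]
  linarith

lemma f_pos {c : ℝ} (hc0 : 0 < c) (hc1 : c ≤ 1) : 0 < c * (1 - Real.log c) := by
  have := Real.log_nonpos hc0.le hc1
  exact mul_pos hc0 (by linarith)

lemma f_lt_one {c : ℝ} (hc0 : 0 < c) (hc1 : c < 1) : c * (1 - Real.log c) < 1 := by
  have h1 : Real.log c⁻¹ < c⁻¹ - 1 := Real.log_lt_sub_one_of_pos (by positivity) (by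
    intro h
    have h0 : c = 1 := inv_eq_one.1 h
    linarith)
  rw [Real.log_inv] at h1
  have h2 : c * (1 - Real.log c) < c * c⁻¹ := mul_lt_mul_of_pos_left (by linarith) hc0
  rwa [mul_inv_cancel₀ hc0.ne'] at h2

/-- small constants -/
lemma exists_small {δ : ℝ} (hδ : 0 < δ) : ∃ a : ℝ, 0 < a ∧ a ≤ 1 ∧ a * (1 - Real.log a) < δ := by
  obtain ⟨r, hr⟩ : ∃ r : ℝ, r = min 1 (δ / 4) := ⟨_, rfl⟩
  have hr0 : 0 < r := by rw [hr]; exact lt_min one_pos (by positivity)
  have hr1 : r ≤ 1 := by rw [hr]; exact min_le_left _ _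
  have hrδ : r ≤ δ / 4 := by rw [hr]; exact min_le_right _ _
  refine ⟨r ^ 2, by positivity, pow_le_one₀ hr0.le hr1, ?_⟩
  have h1 : Real.log r⁻¹ ≤ r⁻¹ - 1 := Real.log_le_sub_one_of_pos (by positivity)
  rw [Real.log_inv] at h1
  rw [Real.log_pow]
  push_cast
  have h2 : r * r⁻¹ = 1 := mul_inv_cancel₀ hr0.ne'
  have h3 : r ^ 2 * (1 - 2 * Real.log r) ≤ r ^ 2 * (1 + 2 * (r⁻¹ - 1)) :=
    mul_le_mul_of_nonneg_left (by linarith) (by positivity)
  have h4 : r ^ 2 * (1 + 2 * (r⁻¹ - 1)) = 2 * r * (r * r⁻¹) - r ^ 2 := by ring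
  rw [h4, h2] at h3
  nlinarith

lemma log_large (a K : ℝ) (ha : 0 < a) : ∀ᶠ l : ℕ in atTop, K ≤ a * Real.log l :=
  ((Real.tendsto_log_atTop.comp tendsto_natCast_atTop_atTop).const_mul_atTop ha).eventually_ge_atTop K

/-- one coordinate with one large prime factor -/
lemma one_side {u v : ℕ → ℕ} (h : ∀ c c' : ℝ, 0 < c → c ≤ 1 → 0 < c' → c' ≤ 1 →
      c * (1 - Real.log c) + c' * (1 - Real.log c') < 1 → ∀ᶠ l : ℕ in atTop,
        c * Real.log l < u l ∨ c' * Real.log l < v l) (b : ℝ) (hb : b < 1) :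
    {l : ℕ | u l = 1 ∧ v l ≤ b * Real.log l}.Finite := by
  obtain ⟨b', hb'⟩ : ∃ b' : ℝ, b' = max b (1 / 2) := ⟨_, rfl⟩
  have h1 : b' < 1 := by rw [hb']; exact max_lt hb (by norm_num)
  have h2 : 0 < b' := by rw [hb']; exact lt_max_of_lt_right (by norm_num)
  have h3 := f_lt_one h2 h1
  obtain ⟨a, ha0, ha1, ha2⟩ := exists_small (sub_pos.2 h3)
  obtain ⟨L, hL⟩ := eventually_atTop.1 ((h a b' ha0 ha1 h2 h1.le (by linarith)).and (log_large a 1 ha0))
  refine (Set.finite_lt_nat L).subset ?_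
  rintro l ⟨h5, h6⟩
  by_contra hcon
  obtain ⟨h7, h8⟩ := hL l (not_lt.1 hcon)
  have hlog : 0 ≤ Real.log l := Real.log_natCast_nonneg l
  rcases h7 with h7 | h7
  · rw [h5] at h7
    push_cast at h7
    linarith
  · have : b * Real.log l ≤ b' * Real.log l :=
      mul_le_mul_of_nonneg_right (by rw [hb']; exact le_max_left _ _) hlog
    linarith

/-- **The two questions for almost all real solutions.** (1) The recursion, the norm, and the integer solutions: the pairs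
`sol k` are the solutions `(X 1 1 l, Y 1 1 l)`, `l = 2 k + 1`, and if `l ≥ 5` is prime then all prime factors of both
coordinates are larger than `l`: `om l` is the number of all prime factors. (2) For every `B`, for almost every `β > 0`: the
number `om l ⌊X_l⌋` of the prime factors larger than `l` is `1` for infinitely many primes `l`, the same holds for `Y_l`, but
both numbers are `1` for finitely many `l` only; for each `b < 1`, for all but finitely many `l`, if one of the numbers is `1`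
then the other one is larger than `b log l`; and if `c, c' ≤ 1` and `c (1 - log c) + c' (1 - log c') < 1` then
`om l ⌊X_l⌋ > c log l` or `om l ⌊Y_l⌋ > c' log l` for all large `l`. (3) The measure of the `t` in an interval of length one such
that this fails for `β = e ^ t` and some `l ≥ N` is at most `K N ^ (-η)` with some `η > 0`. -/
theorem result :
    ((∀ (β B : ℝ) (n : ℕ), X β B (n + 1) = X β B n + 2 * Y β B n ∧ Y β B (n + 1) = X β B n + Y β B n) ∧
      (∀ (β B : ℝ) (n : ℕ), X β B n ^ 2 - 2 * Y β B n ^ 2 = (-1) ^ n * (β * B)) ∧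
      (∀ k : ℕ, X 1 1 (2 * k + 1) = (sol k).1 ∧ Y 1 1 (2 * k + 1) = (sol k).2) ∧
      (∀ k : ℕ, 5 ≤ 2 * k + 1 → (2 * k + 1).Prime →
        om (2 * k + 1) (sol k).1 = ArithmeticFunction.cardFactors (sol k).1 ∧
        om (2 * k + 1) (sol k).2 = ArithmeticFunction.cardFactors (sol k).2)) ∧
    (∀ B : ℝ, ∀ᵐ β : ℝ, 0 < β →
      {l : ℕ | l.Prime ∧ om l ⌊X β B l⌋₊ = 1}.Infinite ∧
      {l : ℕ | l.Prime ∧ om l ⌊Y β B l⌋₊ = 1}.Infinite ∧
      {l : ℕ | om l ⌊X β B l⌋₊ = 1 ∧ om l ⌊Y β B l⌋₊ = 1}.Finite ∧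
      (∀ b : ℝ, b < 1 → {l : ℕ | om l ⌊X β B l⌋₊ = 1 ∧ om l ⌊Y β B l⌋₊ ≤ b * Real.log l}.Finite ∧
        {l : ℕ | om l ⌊Y β B l⌋₊ = 1 ∧ om l ⌊X β B l⌋₊ ≤ b * Real.log l}.Finite) ∧
      ∀ c c' : ℝ, 0 < c → c ≤ 1 → 0 < c' → c' ≤ 1 → c * (1 - Real.log c) + c' * (1 - Real.log c') < 1 →
        ∀ᶠ l : ℕ in atTop, c * Real.log l < om l ⌊X β B l⌋₊ ∨ c' * Real.log l < om l ⌊Y β B l⌋₊) ∧
    (∀ B c c' b : ℝ, 0 < c → c ≤ 1 → 0 < c' → c' ≤ 1 → c * (1 - Real.log c) + c' * (1 - Real.log c') < 1 →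
      ∃ K η : ℝ, 0 < η ∧ ∀ N : ℕ, 1 ≤ N →
        (volume.restrict (Set.Ioc b (b + 1))).real {t : ℝ | ∃ l : ℕ, N ≤ l ∧
          om l ⌊X (Real.exp t) B l⌋₊ ≤ c * Real.log l ∧ om l ⌊Y (Real.exp t) B l⌋₊ ≤ c' * Real.log l} ≤
            K * (N : ℝ) ^ (-η)) := by
  refine ⟨⟨fun β B n => Pool.Agent.R449.SP.XY_succ β B n, fun β B n => ?_, fun k => ?_, fun k h5 hp => ?_⟩,
    fun B => ?_, fun B c c' b hc0 hc1 hc0' hc1' hσ => tail B c c' b hc0 hc1 hc0' hc1' hσ⟩
  · have h2 := Pool.Agent.R449.SP.s2_sq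
    have hs := Pool.Agent.R449.SP.s2_pos.ne'
    have hm : (1 + Real.sqrt 2) ^ n * (1 - Real.sqrt 2) ^ n = (-1) ^ n := by
      rw [← mul_pow, Pool.Agent.R449.SP.al_mul]
    have e1 : X β B n ^ 2 - 2 * Y β B n ^ 2 =
        β * B * ((1 + Real.sqrt 2) ^ n * (1 - Real.sqrt 2) ^ n) := by
      have h3 : (2 * Real.sqrt 2) ^ 2 = 8 := by rw [mul_pow, h2]; norm_num
      unfold X Y
      rw [div_pow, div_pow, h3]
      ring
    rw [e1, hm]
    ring
  · rw [sol_eq]
    exact Pool.Agent.R449.SP.XY_sol k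
  · have h1 := Pool.Agent.R449.SP.rough_sol h5 hp
    rw [(Pool.Agent.R449.SP.XY_sol k).1, (Pool.Agent.R449.SP.XY_sol k).2, Nat.floor_natCast, Nat.floor_natCast] at h1
    rw [sol_eq]
    exact ⟨om_of_rough h1.1, om_of_rough h1.2⟩
  · have hall : ∀ᵐ β : ℝ, ∀ q : ℚ × ℚ, 0 < β → (0 : ℝ) < q.1 → (q.1 : ℝ) ≤ 1 → (0 : ℝ) < q.2 → (q.2 : ℝ) ≤ 1 →
        (q.1 : ℝ) * (1 - Real.log q.1) + (q.2 : ℝ) * (1 - Real.log q.2) < 1 →
        ∀ᶠ l : ℕ in atTop, (q.1 : ℝ) * Real.log l < om l ⌊X β B l⌋₊ ∨ (q.2 : ℝ) * Real.log l < om l ⌊Y β B l⌋₊ := by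
      rw [ae_all_iff]
      intro q
      by_cases h : (0 : ℝ) < q.1 ∧ (q.1 : ℝ) ≤ 1 ∧ (0 : ℝ) < q.2 ∧ (q.2 : ℝ) ≤ 1 ∧
          (q.1 : ℝ) * (1 - Real.log q.1) + (q.2 : ℝ) * (1 - Real.log q.2) < 1
      · filter_upwards [both B q.1 q.2 h.1 h.2.1 h.2.2.1 h.2.2.2.1 h.2.2.2.2] with β hβ h0 _ _ _ _ _
        exact hβ h0
      · exact Eventually.of_forall fun β _ h1 h2 h3 h4 h5 => absurd ⟨h1, h2, h3, h4, h5⟩ h
    filter_upwards [hall, Pool.Agent.R449.SP.pt_X B Set.univ, Pool.Agent.R449.SP.pt_Y B Set.univ] with β hβ hX hY h0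
    have hc : ∀ c c' : ℝ, 0 < c → c ≤ 1 → 0 < c' → c' ≤ 1 → c * (1 - Real.log c) + c' * (1 - Real.log c') < 1 →
        ∀ᶠ l : ℕ in atTop, c * Real.log l < om l ⌊X β B l⌋₊ ∨ c' * Real.log l < om l ⌊Y β B l⌋₊ := by
      intro c c' hc0 hc1 hc0' hc1' hσ
      have g1 := f_pos hc0 hc1
      have g2 := f_pos hc0' hc1'
      have g3 : c < 1 := lt_of_le_of_ne hc1 (by rintro rfl; rw [Real.log_one] at hσ; linarith)
      have g4 : c' < 1 := lt_of_le_of_ne hc1' (by rintro rfl; rw [Real.log_one] at hσ; linarith)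
      obtain ⟨ε, hε⟩ : ∃ ε : ℝ, ε = (1 - (c * (1 - Real.log c) + c' * (1 - Real.log c'))) / 2 := ⟨_, rfl⟩
      have hε0 : 0 < ε := by rw [hε]; linarith
      obtain ⟨q, hq1, hq2, hq3⟩ := rat_near hc0 g3 hε0
      obtain ⟨q', hq1', hq2', hq3'⟩ := rat_near hc0' g4 hε0
      filter_upwards [hβ (q, q') h0 (hc0.trans hq1) hq2 (hc0'.trans hq1') hq2' (by
        simp only
        rw [hε] at hq3 hq3'
        linarith)] with l hl
      have hlog := Real.log_natCast_nonneg l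
      exact hl.imp (lt_of_le_of_lt (mul_le_mul_of_nonneg_right hq1.le hlog))
        (lt_of_le_of_lt (mul_le_mul_of_nonneg_right hq1'.le hlog))
    have hone : ∀ b : ℝ, b < 1 → {l : ℕ | om l ⌊X β B l⌋₊ = 1 ∧ om l ⌊Y β B l⌋₊ ≤ b * Real.log l}.Finite ∧
        {l : ℕ | om l ⌊Y β B l⌋₊ = 1 ∧ om l ⌊X β B l⌋₊ ≤ b * Real.log l}.Finite := by
      intro b hb
      refine ⟨one_side (u := fun l => om l ⌊X β B l⌋₊) (v := fun l => om l ⌊Y β B l⌋₊) hc b hb,
        one_side (u := fun l => om l ⌊Y β B l⌋₊) (v := fun l => om l ⌊X β B l⌋₊) ?_ b hb⟩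
      intro c c' hc0 hc1 hc0' hc1' hσ
      filter_upwards [hc c' c hc0' hc1' hc0 hc1 (by linarith)] with l hl
      exact hl.symm
    refine ⟨?_, ?_, ?_, hone, hc⟩
    · refine ((hX h0).inf Pool.Agent.TH888.R.VS_univ_tendsto).mono ?_
      rintro l ⟨h1, -, h2⟩
      exact ⟨h1, om_eq_one h2⟩
    · refine ((hY h0).inf Pool.Agent.TH888.R.VS_univ_tendsto).mono ?_
      rintro l ⟨h1, -, h2⟩
      exact ⟨h1, om_eq_one h2⟩
    · obtain ⟨L, hL⟩ := eventually_atTop.1 (log_large (1 / 2) 1 (by norm_num))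
      refine (((hone (1 / 2) (by norm_num)).1).union (Set.finite_lt_nat L)).subset ?_
      rintro l ⟨h1, h2⟩
      by_cases h3 : l < L
      · exact Or.inr h3
      · left
        refine ⟨h1, ?_⟩
        rw [h2]
        push_cast
        exact hL l (not_lt.1 h3)

end Pool.Agent.Results.MP_927e73_nt.BothCoordinates
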