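import Pool.Agent.K6.H86.PL.Fin

/-!
# Euclid's lemma for the solutions of `x ^ 2 - 2 y ^ 2 = -1` and compressible numbers

The solutions of `x ^ 2 - 2 y ^ 2 = -1` in positive integers are `x + y √2 = (1 + √2) ^ n`, `n` odd, and `x` or `y` is
prime only if `n` is prime. A prime number which divides a product divides one of the factors. Let `n` be an odd prime
and `F = x` or `F = y`. We show that `F` has this property with respect to the integers with compressible expansions
`∑ (a_j P_j + b_j P_(j+1))` in the Pell numbers `P_j = 0, 1, 2, 5, 12, 29, …`, no matter whether it is prime. A word is a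
concatenation of `z` Lempel-Ziv phrases if each phrase is a letter or a copy of a block which starts at an earlier position
(and may overlap the phrase). If `n > (51 K) ^ (4 (4 W + 12) ^ z)` and `F` divides a product of `K` such integers, the
words of which, read upwards or downwards, have at most `W n` letters (pairs of integers of absolute value at most
`√n / 3`) and `z` phrases, then `F` divides one of them. Periodic expansions and iterated copies are allowed, and so
numbers which are not sums of few Pell numbers. Moreover, if `d ≥ (1 + √2) ^ (δ n)` divides `F` and such an integer `X`,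
and `F` does not divide `X`, then `log n ≤ 4 (4 W + 12) ^ z log (17 / δ)`.

Without the bound for the number of letters this is false if `y` is composite: `∑_(j < d) P_(4 n j + 1) ≡ d` modulo `y`,
since `(1 + √2) ^ (4 n) ≡ 1`; for `y = d e` this number is divisible by `d` and not by `y`, and its word has `5` phrases.

Proof. Let `ε = 1 + √2`. For a word with `z` phrases with the periods `p_i` there is a sum of `(2 W + 6) ^ z` terms
`v_j ε ^ l_j` which is equal to `D` times the value of the word in base `ε`, where `D` is the product of the numbers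
`ε ^ p_i - 1` for the periods `p_i < n`. Multiplication by the conjugate of `D` gives such a sum with `(4 W + 12) ^ z` terms
for the norm of `D`, and so the integer `N(D) X` is a sum of so many Pell numbers. The norm is prime to `x` and `y`: let `l` be
an odd prime divisor of `y` (of `x`) and of the norm of `ε ^ k - 1`, `0 < k < n`. Modulo `l` (the ring modulo `l` is reduced)
`ε ^ (2 k) = 1` and `ε ^ (2 n) = -1` (`ε ^ (2 n) = 1`), so `ε ^ 4 = 1` and `ε ^ 2 = ∓ 1`, that is `l ∣ 2`. So the theorem
follows from the theorem of helper50 on the multiples of large divisors which are sums of few Pell numbers.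
-/

set_option autoImplicit false

namespace Pool.Agent.Results.MP_927e73_nt.CompressibleEuclid

/-- The Pell numbers. -/
def P : ℕ → ℤ
  | 0 => 0
  | 1 => 1
  | k + 2 => 2 * P (k + 1) + P k

/-- The word `a 0, …, a (l - 1)` is a concatenation of `z` phrases, each of which is empty, a letter or a copy of
a block starting at an earlier position (at the distance `p`). -/
def LZ {α : Type} (a : ℕ → α) (l z : ℕ) : Prop :=
  ∃ c : ℕ → ℕ, c 0 = 0 ∧ c z = l ∧ ∀ i < z, c (i + 1) = c i + 1 ∨
    (c i ≤ c (i + 1) ∧ ∃ p, 0 < p ∧ p ≤ c i ∧ ∀ j, c i ≤ j → j < c (i + 1) → a j = a (j - p))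

/-- `X` is the value, in the Pell numbers, of a word with `l ≤ L` letters `(a j, b j)`, `|a j|, |b j| ≤ B`, and `z`
phrases. The first letter is the highest or the lowest one. -/
def Compressible (L : ℕ) (B : ℤ) (z : ℕ) (X : ℤ) : Prop :=
  ∃ (a b : ℕ → ℤ) (l : ℕ), l ≤ L ∧ LZ (fun j => (a j, b j)) l z ∧
    (∀ j < l, |a j| ≤ B ∧ |b j| ≤ B) ∧
    (X = ∑ j ∈ Finset.range l, (a j * P (l - 1 - j) + b j * P (l - 1 - j + 1)) ∨
      X = ∑ j ∈ Finset.range l, (a j * P j + b j * P (j + 1)))

theorem P_eq (i : ℕ) : P i = Pool.Agent.N449.SQ.U 2 i := by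
  induction i using Nat.strong_induction_on with
  | _ i ih =>
    match i with
    | 0 => rfl
    | 1 => rfl
    | i + 2 => rw [P, Pool.Agent.N449.SQ.U, ih (i + 1) (by omega), ih i (by omega)]

theorem toLib {L : ℕ} {B : ℤ} {z : ℕ} {X : ℤ} (h : Compressible L B z X) :
    Pool.Agent.K6.H86.PL.Compr L B z X := by
  obtain ⟨a, b, l, hl, hLZ, hab, hval⟩ := h
  simp only [P_eq] at hval
  exact ⟨a, b, l, hl, hLZ, hab, hval⟩

theorem result :
    -- Euclid's lemma
    (∀ (n : ℕ) (x y : ℤ), n.Prime → n ≠ 2 → (x : ℝ) + y * √2 = (1 + √2) ^ n →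
      ∀ (K W z : ℕ) (B : ℤ) (X : Fin K → ℤ), 9 * B ^ 2 ≤ n →
      (∀ i, Compressible (W * n) B z (X i)) → (51 * K) ^ (4 * (4 * W + 12) ^ z) < n →
      (x ∣ ∏ i, X i → ∃ i, x ∣ X i) ∧ (y ∣ ∏ i, X i → ∃ i, y ∣ X i)) ∧
    -- the multiples of the large divisors
    (∀ (n : ℕ) (x y : ℤ), n.Prime → n ≠ 2 → (x : ℝ) + y * √2 = (1 + √2) ^ n →
      ∀ δ : ℝ, 0 < δ → δ ≤ 1 → ∀ d : ℕ, (1 + √2) ^ (δ * n) ≤ (d : ℝ) →
      ∀ (W z : ℕ) (B X : ℤ), 9 * B ^ 2 ≤ n → Compressible (W * n) B z X → (d : ℤ) ∣ X →
      (((d : ℤ) ∣ x ∧ ¬ x ∣ X) ∨ ((d : ℤ) ∣ y ∧ ¬ y ∣ X)) →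
      Real.log n ≤ 4 * ((4 * W + 12) ^ z : ℕ) * Real.log (17 / δ)) :=
  ⟨fun _ _ _ hn hn2 h _ _ _ _ X hB hX hlarge =>
      ⟨Pool.Agent.K6.H86.PL.euclid hn hn2 h hB X (fun i => toLib (hX i)) hlarge (Or.inl rfl),
        Pool.Agent.K6.H86.PL.euclid hn hn2 h hB X (fun i => toLib (hX i)) hlarge (Or.inr rfl)⟩,
    fun _ _ _ hn hn2 h _ hδ hδ1 d hd _ _ _ _ hB hX hdX hxy =>
      Pool.Agent.K6.H86.PL.phrases hn hn2 h hδ hδ1 d hd hB (toLib hX) hdX hxy⟩

end Pool.Agent.Results.MP_927e73_nt.CompressibleEuclid
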