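import Pool.Agent.K6.H54.RZ.Aff

/-!
# Sparse zeros of polynomials modulo the solutions of `x ^ 2 - 2 y ^ 2 = -1`

The solutions of `x ^ 2 - 2 y ^ 2 = -1` in positive integers are `x + y √2 = (1 + √2) ^ n`, `n` odd,
and `x` or `y` is prime only if `n` is prime. Let `n` be an odd prime. We consider integers
`W_1, …, W_m` which are sums of few Pell numbers `P_i = 0, 1, 2, 5, 12, 29, …`:
`W_j = ∑_{i ∈ S} (u_i P_i + u'_i P_(i+1))` with `|u_i|, |u'_i| ≤ n`. We show that with respect to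
such integers the ring `ℤ / x ℤ`, and also `ℤ / d ℤ` for all large divisors `d` of `x`, behaves like
a subfield of the real numbers: if all real zeros of a polynomial `P` are zeros of one of the
polynomials `L_j` (all with integer coefficients) and `d` divides `P (W_1, …, W_m)`, then `x` divides
`L_j (W_1, …, W_m)` for some `j`, provided that `n` is larger than `(15 deg P / δ) ^ (4 (|S| + 1))`,
where `d ≥ (1 + √2) ^ (δ n)`.

So polynomials without real zeros have no sparse zeros modulo `x`: `- 1` is not a sum of squares of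
sparse integers, there are no sparse square roots of `-1` modulo `x`, or modulo a large divisor of
`x`; a polynomial in one variable all of whose real zeros are integers has only these integers as
sparse zeros modulo `x`; `W ^ k ≡ W' ^ k` implies `W ≡ W'`, or `W ≡ - W'` and `k` is even.

This is false for `y`: the sum `x = P_(n-1) + P_n` of two Pell numbers is a square root of `-1`
modulo `y`. Modulo `y` we have the same theorem with the complex zeros of `P` instead of the real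
zeros.

Proof. Let `θ ^ q = ε ^ (-n)`, `ε = 1 + √2`, where `q ≤ (8 k / δ + 1) ^ |S|` is chosen such that all
`q i`, `i ∈ S`, are near to multiples `α_i n` of `n`. Write
`W_j (ε - ε') = ∑ (z_i - z_i')`, `z_i = (u_i + u'_i ε) ε ^ i`, and
`D_j = ∑ (z_i θ ^ α_i - z_i' θ ^ (-α_i))`. The multiplication by `P (D_1, …, D_m)` has with respect
to the basis `ε ^ ⌊j n / q⌋ θ ^ j` of `ℚ(ε, θ)` a matrix whose elements are small as the errors of the
approximation of the exponents only add up; its determinant has a norm divisible by `d`, as modulo the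
ideal `(d, ε ^ n - 1)` we can replace `θ` by `1`. So the determinant vanishes and
`P (D_1, …, D_m) = 0`. The field `ℚ(ε, θ)` has a real embedding, so that
`L_j (D_1, …, D_m) = 0` for some `j`, and with `θ = 1` it follows that `x` divides
`L_j (W_1, …, W_m)`. For `y` we have `θ ^ q = - ε ^ (-2 n)` instead.
-/

set_option autoImplicit false

namespace Pool.Agent.Results.MP_927e73_nt.RealZeros

open Finset

/-- The Pell numbers `0, 1, 2, 5, 12, 29, …`. -/
def pell : ℕ → ℤ
  | 0 => 0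
  | 1 => 1
  | k + 2 => 2 * pell (k + 1) + pell k

/-- The sum `∑_{i ∈ S} (u_i P_i + u'_i P_(i+1))`, `P_i` the Pell numbers. -/
def val (S : Finset ℕ) (u u' : ℕ → ℤ) : ℤ := ∑ i ∈ S, (u i * pell i + u' i * pell (i + 1))

/-- The sum of the absolute values of the coefficients. -/
noncomputable def len {m : ℕ} (P : MvPolynomial (Fin m) ℤ) : ℤ := ∑ μ ∈ P.support, |P.coeff μ|

theorem pell_eq (i : ℕ) : pell i = Pool.Agent.N449.SQ.U 2 i := by
  induction i using Nat.strong_induction_on with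
  | _ i ih =>
    match i with
    | 0 => rfl
    | 1 => rfl
    | i + 2 => rw [pell, Pool.Agent.N449.SQ.U, ih (i + 1) (by omega), ih i (by omega)]

theorem val_eq (S : Finset ℕ) (u u' : ℕ → ℤ) : val S u u' = Pool.Agent.K6.H54.RZ.val S u u' :=
  Finset.sum_congr rfl fun i _ => by rw [pell_eq, pell_eq]

/-- `x = P_(n-1) + P_n` is a square root of `-1` modulo `y`. -/
theorem sqrt_y {n : ℕ} (hn : n.Prime) (hn2 : n ≠ 2) {x y : ℤ}
    (h : (x : ℝ) + y * √2 = (1 + √2) ^ n) :
    x = val {n - 1} (fun _ => 1) (fun _ => 1) ∧ y ∣ x ^ 2 + 1 := by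
  have hodd : Odd n := hn.odd_of_ne_two hn2
  obtain ⟨t, rfl⟩ : ∃ t, n = t + 1 := ⟨n - 1, by have := hn.pos; omega⟩
  constructor
  · have h1 := (Pool.Agent.K6.H54.RZ.ident h).2
    rw [Pool.Agent.N449.SQ.V_eq] at h1
    have h2 : Pool.Agent.N449.SQ.U 2 (t + 1 + 1) =
        2 * Pool.Agent.N449.SQ.U 2 (t + 1) + Pool.Agent.N449.SQ.U 2 t := rfl
    rw [h2] at h1
    rw [val, Nat.add_sub_cancel, Finset.sum_singleton, pell_eq, pell_eq]
    linarith
  · have h1 := Pool.Agent.K6.H54.RZ.eqn hodd h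
    exact ⟨2 * y, by linear_combination h1⟩

/-- The size of `x` and `y`. -/
theorem size {n : ℕ} (hn : 3 ≤ n) (hodd : Odd n) {x y : ℤ}
    (h : (x : ℝ) + y * √2 = (1 + √2) ^ n) :
    (1 + √2) ^ ((n : ℝ) / 2) ≤ x ∧ (1 + √2) ^ ((n : ℝ) / 2) ≤ y := by
  obtain ⟨hyU, hxV⟩ := Pool.Agent.K6.H54.RZ.ident h
  have h' : (x : ℝ) - y * √2 = (1 - √2) ^ n := by
    rw [Pool.Agent.K6.H54.RZ.pell', hyU]
    have : (2 : ℝ) * x = Pool.Agent.N449.SQ.V 2 n := by exact_mod_cast hxV
    linarith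
  have h2 : √(2 : ℝ) ^ 2 = 2 := Real.sq_sqrt (by norm_num)
  have hsq : (1.4 : ℝ) < √2 := by
    rw [Real.lt_sqrt (by norm_num)]
    norm_num
  have hsq' : √2 < (1.5 : ℝ) := by
    rw [Real.sqrt_lt' (by norm_num)]
    norm_num
  obtain ⟨t, ht⟩ : ∃ t : ℝ, t = (1 + √2) ^ ((n : ℝ) / 2) := ⟨_, rfl⟩
  have ht0 : 0 < t := by rw [ht]; positivity
  have ht2 : t ^ 2 = (1 + √2) ^ n := by
    rw [ht, ← Real.rpow_natCast, ← Real.rpow_mul (by positivity)]
    rw [show (n : ℝ) / 2 * ((2 : ℕ) : ℝ) = n by push_cast; ring, Real.rpow_natCast]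
  have h3 : (9 : ℝ) ≤ t ^ 2 := by
    rw [ht2]
    calc (9 : ℝ) ≤ (2.4 : ℝ) ^ 3 := by norm_num
      _ ≤ (1 + √2) ^ 3 := pow_le_pow_left₀ (by norm_num) (by linarith) 3
      _ ≤ (1 + √2) ^ n := pow_le_pow_right₀ (by linarith) hn
  have ht3 : 3 ≤ t := by nlinarith
  -- the conjugate is negative and small
  have h4 : -1 ≤ (1 - √2) ^ n ∧ (1 - √2) ^ n ≤ 0 := by
    have h5 : (1 - √2) ^ n = -(√2 - 1) ^ n := by
      rw [← hodd.neg_pow]
      congr 1
      ring
    have h6 : (√2 - 1) ^ n ≤ 1 := pow_le_one₀ (by linarith) (by linarith)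
    have h7 : 0 ≤ (√2 - 1) ^ n := pow_nonneg (by linarith) n
    rw [h5]
    constructor <;> linarith
  rw [← ht]
  constructor
  · have h5 : 2 * (x : ℝ) ≥ t ^ 2 - 1 := by rw [ht2]; linarith [h4.1]
    nlinarith
  · have h5 : 2 * (y : ℝ) * √2 ≥ t ^ 2 := by rw [ht2]; linarith [h4.2]
    have h6 : 0 < (y : ℝ) := by
      by_contra hcon
      rw [not_lt] at hcon
      nlinarith
    nlinarith

/-- **Main theorem.** Let `n` be an odd prime and `x + y √2 = (1 + √2) ^ n`, so that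
`x ^ 2 - 2 y ^ 2 = -1`. Then `x, y ≥ (1 + √2) ^ (n / 2)`. Let `0 < δ ≤ 1`,
`d ≥ (1 + √2) ^ (δ n)`, `k ≥ 1`, and let `S` be a finite set of indices. All sums
`∑_{i ∈ S} (u_i P_i + u'_i P_(i+1))` below have integers `|u_i|, |u'_i| ≤ n`.

(1) Let `P` and `L_j` be polynomials in `m` variables with integer coefficients such that every real
zero of `P` is a zero of one of the `L_j`, `deg P ≤ k`, and the sum of the absolute values of
the coefficients of `P` is at most `n ^ k`. If `d` divides `x` and `P (W_1, …, W_m)`, where the `W_i` are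
sums, then `x` divides `L_j (W_1, …, W_m)` for some `j`, or
`log n ≤ 4 (|S| + 1) log (15 k / δ)`.

(2) The same holds for `y` if every complex zero of `P` is a zero of one of the `L_j`.

(3) Let `T` be a polynomial in one variable of degree `k` with integer coefficients, the sum of their
absolute values being at most `n ^ k`, all of whose real zeros are integers. If `d` divides `x` and
`T (W)` for a sum `W`, then `x` divides `W - c` for an integer zero `c` of `T`, or
`log n ≤ 4 (|S| + 1) log (15 k / δ)`.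

(4) If `d` divides `x` and `W ^ k - W' ^ k` for sums `W`, `W'`, then `x` divides `W - W'`, or `k` is
even and `x` divides `W + W'`, or `log n ≤ 4 |S| log (15 k / δ)`.

(5) `x = P_(n-1) + P_n` and `y` divides `x ^ 2 + 1` (so (1) and (3) are false for `y`). -/
theorem result :
    ∀ (n : ℕ) (x y : ℤ), n.Prime → n ≠ 2 → (x : ℝ) + y * √2 = (1 + √2) ^ n →
      ((1 + √2) ^ ((n : ℝ) / 2) ≤ x ∧ (1 + √2) ^ ((n : ℝ) / 2) ≤ y) ∧
      (x = val {n - 1} (fun _ => 1) (fun _ => 1) ∧ y ∣ x ^ 2 + 1) ∧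
      ∀ (δ : ℝ) (d : ℕ), 0 < δ → δ ≤ 1 → (1 + √2) ^ (δ * n) ≤ (d : ℝ) → ∀ k : ℕ, 1 ≤ k →
      ∀ S : Finset ℕ,
      (∀ (m : ℕ) (u u' : Fin m → ℕ → ℤ), (∀ j, ∀ i ∈ S, |u j i| ≤ n ∧ |u' j i| ≤ n) →
        ∀ P : MvPolynomial (Fin m) ℤ, P.totalDegree ≤ k → len P ≤ (n : ℤ) ^ k →
        (d : ℤ) ∣ MvPolynomial.eval (fun j => val S (u j) (u' j)) P →
        ∀ (J : Type) (L : J → MvPolynomial (Fin m) ℤ),
        ((d : ℤ) ∣ x →
          (∀ z : Fin m → ℝ, MvPolynomial.aeval z P = 0 → ∃ j, MvPolynomial.aeval z (L j) = 0) →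
          (∃ j, x ∣ MvPolynomial.eval (fun j => val S (u j) (u' j)) (L j)) ∨
            Real.log n ≤ 4 * (S.card + 1) * Real.log (15 * k / δ)) ∧
        ((d : ℤ) ∣ y →
          (∀ z : Fin m → ℂ, MvPolynomial.aeval z P = 0 → ∃ j, MvPolynomial.aeval z (L j) = 0) →
          (∃ j, y ∣ MvPolynomial.eval (fun j => val S (u j) (u' j)) (L j)) ∨
            Real.log n ≤ 4 * (S.card + 1) * Real.log (15 * k / δ))) ∧
      ((d : ℤ) ∣ x → ∀ u u' : ℕ → ℤ, (∀ i ∈ S, |u i| ≤ n ∧ |u' i| ≤ n) →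
        (∀ T : Polynomial ℤ, T.natDegree = k → ∑ i ∈ range (k + 1), |T.coeff i| ≤ (n : ℤ) ^ k →
          (∀ r : ℝ, Polynomial.aeval r T = 0 → ∃ c : ℤ, (c : ℝ) = r) →
          (d : ℤ) ∣ T.eval (val S u u') →
          (∃ c : ℤ, T.eval c = 0 ∧ x ∣ val S u u' - c) ∨
            Real.log n ≤ 4 * (S.card + 1) * Real.log (15 * k / δ)) ∧
        (∀ v v' : ℕ → ℤ, (∀ i ∈ S, |v i| ≤ n ∧ |v' i| ≤ n) →
          (d : ℤ) ∣ val S u u' ^ k - val S v v' ^ k →
          x ∣ val S u u' - val S v v' ∨ (Even k ∧ x ∣ val S u u' + val S v v') ∨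
            Real.log n ≤ 4 * S.card * Real.log (15 * k / δ))) := by
  refine fun n x y hn hn2 h => ⟨?_, sqrt_y hn hn2 h, fun δ d hδ hδ1 hdδ k hk S => ⟨?_, ?_⟩⟩
  · have := hn.two_le
    exact size (by omega) (hn.odd_of_ne_two hn2) h
  · intro m u u' hu P hP hlen hd J L
    have hv : (fun j => val S (u j) (u' j)) =
        fun j => Pool.Agent.K6.H54.RZ.val S (u j) (u' j) := funext fun j => val_eq _ _ _
    rw [hv] at hd ⊢
    exact ⟨fun hdx hz => Pool.Agent.K6.H54.RZ.affX hn hn2 h hk S u u' hu P hP hlen L hδ hδ1 hdδ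
      hd hdx hz, fun hdy hz => Pool.Agent.K6.H54.RZ.affY hn hn2 h hk S u u' hu P hP hlen L hδ hδ1
      hdδ hd hdy hz⟩
  · intro hdx u u' hu
    refine ⟨fun T hT hlen hreal hd => ?_, fun v v' hv hd => ?_⟩
    · rw [val_eq] at hd ⊢
      exact Pool.Agent.K6.H54.RZ.roots hn hn2 h hk hδ hδ1 hdδ hdx S u u' hu T hT hlen hreal hd
    · rw [val_eq, val_eq] at hd
      rw [val_eq, val_eq]
      exact Pool.Agent.K6.H54.RZ.powers hn hn2 h hk hδ hδ1 hdδ hdx S u u' v v' hu hv hd

end Pool.Agent.Results.MP_927e73_nt.RealZeros
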