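import Pool.Agent.K6.H50.SMU.UFinal

/-!
# Euclid's lemma for sparse factors and divisors of the solutions of `x ^ 2 - 2 y ^ 2 = -1`

The solutions of `x ^ 2 - 2 y ^ 2 = -1` in positive integers are `x + y √2 = (1 + √2) ^ n`, `n` odd,
and `x` or `y` is prime only if `n` is prime. Let `n` be an odd prime and let
`d ≥ (1 + √2) ^ (δ n)` be a divisor of `x` (or of `y`), `0 < δ ≤ 1`. We show that all multiples of
`d` which are not multiples of `x` (of `y`) are far from being sums of few Pell numbers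
`P_i = 0, 1, 2, 5, 12, 29, …`: if such a multiple is equal to `∑_{i ∈ S} (u_i P_i + u'_i P_(i+1))`
with integers `|u_i|, |u'_i| ≤ n`, then `|S| ≥ log n / (4 log (17 / δ))`.

As a consequence, `x` and `y` behave as primes with respect to products of sparse numbers (even if
they are composite): if `x` (or `y`) divides a product of `K` such sums, with at most `s` indices
each, then it divides one of the sums, or `s ≥ log n / (4 log (34 K))`. In particular every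
factorization of a multiple of `x` into `K` sparse factors is trivial: one of the factors is a
multiple of `x`.

This comes from a theorem on Lucas sequences `U_i = U_i(a, -1)`, `V_i = V_i(a, -1)` for `a ≥ 1` such
that `ε = (a + √(a ^ 2 + 4)) / 2` is not a proper power. Let `p` be an odd prime,
`W = ∑_{i ∈ S} (u_i U_i + u'_i U_(i+1))` with any integers `u_i, u'_i`, `s = |S|`,
`A = ∑ (|u_i| + (a + 1) |u'_i|)` and `H ^ s < p`. A common divisor `d` of `U_p` and `W` is at most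
`(2 A) ^ (H ^ s) ε ^ (2 p / H + H ^ s)`, unless `U_p` divides `W`. A common divisor of `V_p` and `W`
is at most `(2 A) ^ (2 H ^ s) ε ^ (2 p / H + 2 H ^ s)`, unless `V_p` divides `2 W`.

Proof. Let `N = 2 p` (or `N = p`) and `f = X ^ q ± ε ^ (-N)`, where `q ≤ H ^ s` is chosen such that
all `q i`, `i ∈ S`, are near to multiples `α_i N` of `N`; this polynomial is irreducible over
`ℚ(ε)` (Capelli). Write `W (ε - ε') = ∑ (z_i - z_i')` with `z_i = (u_i + u'_i ε) ε ^ i`, and let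
`D = ∑ (z_i X ^ α_i - z_i' X ^ (-α_i))`. The multiplication by `D(θ)`, `θ` a root of `f`, has with
respect to the basis `ε ^ ⌊j N / q⌋ θ ^ j`, `0 ≤ j < q`, a matrix over `ℤ[ε]` whose elements and
their conjugates are small. Its determinant belongs to the ideal `(d)` (to `(d, ε ^ p - 1)`), as
modulo this ideal `θ` can be replaced by `1`, and it is not zero unless `f(1)` divides
`W (ε - ε')`.
-/

set_option autoImplicit false

namespace Pool.Agent.Results.MP_927e73_nt.SparseMultiples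

/-- The Lucas sequence `U_n(a, -1)`; `U 2` are the Pell numbers. -/
def U (a : ℤ) : ℕ → ℤ
  | 0 => 0
  | 1 => 1
  | k + 2 => a * U a (k + 1) + U a k

/-- The companion Lucas sequence `V_n(a, -1)`. -/
def V (a : ℤ) : ℕ → ℤ
  | 0 => 2
  | 1 => a
  | k + 2 => a * V a (k + 1) + V a k

theorem U_eq (a : ℤ) (i : ℕ) : U a i = Pool.Agent.N449.SQ.U a i := by
  induction i using Nat.strong_induction_on with
  | _ i ih =>
    match i with
    | 0 => rfl
    | 1 => rfl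
    | i + 2 => rw [U, Pool.Agent.N449.SQ.U, ih (i + 1) (by omega), ih i (by omega)]

theorem V_eq (a : ℤ) (i : ℕ) : V a i = Pool.Agent.N449.SQ.V a i := by
  induction i using Nat.strong_induction_on with
  | _ i ih =>
    match i with
    | 0 => rfl
    | 1 => rfl
    | i + 2 => rw [V, Pool.Agent.N449.SQ.V, ih (i + 1) (by omega), ih i (by omega)]

theorem pell (n : ℕ) : ((1 : ℝ) + √2) ^ n = (V 2 n : ℝ) / 2 + U 2 n * √2 := by
  have h2 : √(2 : ℝ) ^ 2 = 2 := Real.sq_sqrt (by norm_num)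
  have h : ((1 : ℝ) + √2) ^ n = (V 2 n : ℝ) / 2 + U 2 n * √2 ∧
      ((1 : ℝ) + √2) ^ (n + 1) = (V 2 (n + 1) : ℝ) / 2 + U 2 (n + 1) * √2 := by
    induction n with
    | zero => simp [V, U]
    | succ n ih =>
      refine ⟨ih.2, ?_⟩
      have e : ((1 : ℝ) + √2) ^ (n + 1 + 1) = 2 * (1 + √2) ^ (n + 1) + (1 + √2) ^ n := by
        have : ((1 : ℝ) + √2) ^ 2 = 2 * (1 + √2) + 1 := by linear_combination h2
        rw [show n + 1 + 1 = n + 2 from rfl, pow_add, this]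
        ring
      rw [e, ih.1, ih.2, V, U]
      push_cast
      ring
  exact h.1

theorem ident {n : ℕ} {x y : ℤ} (h : (x : ℝ) + y * √2 = (1 + √2) ^ n) :
    y = U 2 n ∧ 2 * x = V 2 n := by
  have hirr : Irrational √2 := irrational_sqrt_two
  rw [pell] at h
  have hyU : y = U 2 n := by
    by_contra hne
    have h1 : ((y : ℝ) - U 2 n) * √2 = ((V 2 n : ℝ) / 2 - x) := by linarith
    have h2 : ((y : ℝ) - U 2 n) ≠ 0 := by
      intro h0
      apply hne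
      have : (y : ℝ) = U 2 n := by linarith
      exact_mod_cast this
    apply hirr
    refine ⟨((V 2 n : ℚ) / 2 - x) / ((y : ℚ) - U 2 n), ?_⟩
    push_cast
    rw [← h1]
    field_simp
  refine ⟨hyU, ?_⟩
  rw [hyU] at h
  have : (2 : ℝ) * x = V 2 n := by linarith
  exact_mod_cast this

theorem sum_eq (a : ℤ) (S : Finset ℕ) (u u' : ℕ → ℤ) :
    ∑ i ∈ S, (u i * U a i + u' i * U a (i + 1)) =
      ∑ i ∈ S, ((⟨u i, u' i⟩ : Pool.Agent.N449.SQ.R a) * Pool.Agent.N449.SQ.w a i).im := by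
  refine Finset.sum_congr rfl fun i _ => ?_
  rw [Pool.Agent.N449.SQ.mul_w_im, U_eq, U_eq]

theorem hs_le {a : ℤ} (ha : 1 ≤ a) (S : Finset ℕ) (u u' : ℕ → ℤ) :
    ∑ i ∈ S, Pool.Agent.N449.SQ.hs a ⟨u i, u' i⟩ ≤
      ((∑ i ∈ S, (|u i| + (a + 1) * |u' i|) : ℤ) : ℝ) := by
  rw [Int.cast_sum]
  exact Finset.sum_le_sum fun i _ => Pool.Agent.N449.SQ.hs_pair ha _ _

theorem general {a : ℤ} (ha : 1 ≤ a)
    (hV : ∀ (b : ℤ) (r : ℕ), 1 ≤ b → 2 ≤ r → Odd r → V b r ≠ a) {p : ℕ} (hp : p.Prime)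
    (hp2 : p ≠ 2) (S : Finset ℕ) (u u' : ℕ → ℤ) (H d : ℕ) (hH : 1 ≤ H) (hHp : H ^ S.card < p)
    (hd : (d : ℤ) ∣ ∑ i ∈ S, (u i * U a i + u' i * U a (i + 1))) :
    ((d : ℤ) ∣ U a p → ¬ U a p ∣ ∑ i ∈ S, (u i * U a i + u' i * U a (i + 1)) →
      (d : ℝ) ≤ (2 * (∑ i ∈ S, (|u i| + (a + 1) * |u' i|) : ℤ)) ^ (H ^ S.card) *
        ((a + √((a : ℝ) ^ 2 + 4)) / 2) ^ (2 * p / H + H ^ S.card)) ∧
    ((d : ℤ) ∣ V a p → ¬ V a p ∣ 2 * ∑ i ∈ S, (u i * U a i + u' i * U a (i + 1)) →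
      (d : ℝ) ≤ ((2 * (∑ i ∈ S, (|u i| + (a + 1) * |u' i|) : ℤ)) ^ (H ^ S.card) *
        ((a + √((a : ℝ) ^ 2 + 4)) / 2) ^ (p / H + H ^ S.card)) ^ 2) := by
  have hV' : ∀ (b : ℤ) (r : ℕ), 1 ≤ b → 2 ≤ r → Odd r → Pool.Agent.N449.SQ.V b r ≠ a := by
    intro b r h1 h2 h3
    rw [← V_eq]
    exact hV b r h1 h2 h3
  have h1 := hs_le ha S u u'
  have h0 : 0 ≤ ∑ i ∈ S, Pool.Agent.N449.SQ.hs a ⟨u i, u' i⟩ :=
    Finset.sum_nonneg fun _ _ => Pool.Agent.N449.SQ.hs_nonneg a _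
  have he : 0 < (a + √((a : ℝ) ^ 2 + 4)) / 2 := Pool.Agent.N449.SQ.eps_pos a
  rw [sum_eq] at hd ⊢
  constructor
  · intro h2 h3
    rw [U_eq] at h2 h3
    refine (Pool.Agent.K6.H50.SMP.finalU ha hV' hp hp2 S (fun i => ⟨u i, u' i⟩) hH hHp h2 hd
      h3).trans ?_
    refine mul_le_mul_of_nonneg_right (pow_le_pow_left₀ (by linarith) (by linarith) _) ?_
    exact (pow_pos he _).le
  · intro h2 h3
    rw [V_eq] at h2 h3
    refine (Pool.Agent.K6.H50.SMP.finalV ha hV' hp hp2 S (fun i => ⟨u i, u' i⟩) hH hHp h2 hd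
      h3).trans ?_
    refine pow_le_pow_left₀ (mul_nonneg (pow_nonneg (by linarith) _) (pow_pos he _).le) ?_ 2
    refine mul_le_mul_of_nonneg_right (pow_le_pow_left₀ (by linarith) (by linarith) _) ?_
    exact (pow_pos he _).le

theorem h2e : ((2 : ℤ) + √(((2 : ℤ) : ℝ) ^ 2 + 4)) / 2 = 1 + √2 := by
  have : √(((2 : ℤ) : ℝ) ^ 2 + 4) = 2 * √2 := by
    rw [show (((2 : ℤ) : ℝ) ^ 2 + 4) = 2 ^ 2 * 2 by push_cast; norm_num,
      Real.sqrt_mul (by positivity), Real.sqrt_sq (by norm_num)]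
  rw [this]
  push_cast
  ring

theorem hV2 : ∀ (b : ℤ) (r : ℕ), 1 ≤ b → 2 ≤ r → Odd r → V b r ≠ 2 := by
  intro b r hb hr _ h1
  have := Pool.Agent.N449.SQ.three_le_V b hb r hr
  rw [V_eq] at h1
  omega

/-- Both cases. -/
theorem both {n : ℕ} (hn : n.Prime) (hn2 : n ≠ 2) {x y : ℤ}
    (h : (x : ℝ) + y * √2 = (1 + √2) ^ n) (S : Finset ℕ) (u u' : ℕ → ℤ) (H d : ℕ) (hH : 1 ≤ H)
    (hHp : H ^ S.card < n) (hu : ∀ i ∈ S, |u i| ≤ n ∧ |u' i| ≤ n)
    (hd : (d : ℤ) ∣ ∑ i ∈ S, (u i * U 2 i + u' i * U 2 (i + 1)))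
    (hxy : ((d : ℤ) ∣ x ∧ ¬ x ∣ ∑ i ∈ S, (u i * U 2 i + u' i * U 2 (i + 1))) ∨
      ((d : ℤ) ∣ y ∧ ¬ y ∣ ∑ i ∈ S, (u i * U 2 i + u' i * U 2 (i + 1)))) :
    (d : ℝ) ≤ ((8 * S.card * n) ^ (H ^ S.card) * (1 + √2) ^ (n / H + H ^ S.card)) ^ 2 ∨
      (d : ℝ) ≤ (8 * S.card * n) ^ (H ^ S.card) * (1 + √2) ^ (2 * n / H + H ^ S.card) := by
  obtain ⟨hyU, hxV⟩ := ident h
  obtain ⟨g1, g2⟩ := general (a := 2) (by norm_num) hV2 hn hn2 S u u' H d hH hHp hd
  rw [h2e] at g1 g2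
  have hA0 : (0 : ℤ) ≤ ∑ i ∈ S, (|u i| + (2 + 1) * |u' i|) :=
    Finset.sum_nonneg fun _ _ => by positivity
  have hA : (∑ i ∈ S, (|u i| + (2 + 1) * |u' i|)) ≤ 4 * S.card * n := by
    calc ∑ i ∈ S, (|u i| + (2 + 1) * |u' i|) ≤ ∑ i ∈ S, (4 * (n : ℤ)) := by
          refine Finset.sum_le_sum fun i hi => ?_
          obtain ⟨h1, h2⟩ := hu i hi
          linarith
      _ = 4 * S.card * n := by rw [Finset.sum_const, nsmul_eq_mul]; ring
  have hA' : (2 * ((∑ i ∈ S, (|u i| + (2 + 1) * |u' i|) : ℤ) : ℝ)) ≤ 8 * S.card * n := by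
    have : ((∑ i ∈ S, (|u i| + (2 + 1) * |u' i|) : ℤ) : ℝ) ≤ ((4 * S.card * n : ℤ) : ℝ) := by
      exact_mod_cast hA
    push_cast at this ⊢
    linarith
  have hA0' : (0 : ℝ) ≤ 2 * ((∑ i ∈ S, (|u i| + (2 + 1) * |u' i|) : ℤ) : ℝ) := by
    have : (0 : ℝ) ≤ ((∑ i ∈ S, (|u i| + (2 + 1) * |u' i|) : ℤ) : ℝ) := by exact_mod_cast hA0
    linarith
  have he : (0 : ℝ) < 1 + √2 := by positivity
  rcases hxy with ⟨h1, h2⟩ | ⟨h1, h2⟩
  · left
    refine (g2 ?_ ?_).trans ?_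
    · rw [← hxV]
      exact Dvd.dvd.mul_left h1 _
    · rw [← hxV]
      intro h3
      exact h2 ((mul_dvd_mul_iff_left two_ne_zero).1 h3)
    · exact pow_le_pow_left₀ (by positivity)
        (mul_le_mul_of_nonneg_right (pow_le_pow_left₀ hA0' hA' _) (by positivity)) 2
  · right
    refine (g1 (by rw [← hyU]; exact h1) (by rw [← hyU]; exact h2)).trans ?_
    exact mul_le_mul_of_nonneg_right (pow_le_pow_left₀ hA0' hA' _) (by positivity)

/-- The number of terms. -/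
theorem digits {n : ℕ} (hn : n.Prime) (hn2 : n ≠ 2) {x y : ℤ}
    (h : (x : ℝ) + y * √2 = (1 + √2) ^ n) {δ : ℝ} (hδ : 0 < δ) (hδ1 : δ ≤ 1) (d : ℕ)
    (hdδ : (1 + √2) ^ (δ * n) ≤ (d : ℝ)) (S : Finset ℕ) (u u' : ℕ → ℤ)
    (hu : ∀ i ∈ S, |u i| ≤ n ∧ |u' i| ≤ n)
    (hd : (d : ℤ) ∣ ∑ i ∈ S, (u i * U 2 i + u' i * U 2 (i + 1)))
    (hxy : ((d : ℤ) ∣ x ∧ ¬ x ∣ ∑ i ∈ S, (u i * U 2 i + u' i * U 2 (i + 1))) ∨
      ((d : ℤ) ∣ y ∧ ¬ y ∣ ∑ i ∈ S, (u i * U 2 i + u' i * U 2 (i + 1)))) :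
    Real.log n ≤ 4 * S.card * Real.log (17 / δ) := by
  have hS : 1 ≤ S.card := by
    rw [Nat.one_le_iff_ne_zero, Finset.card_ne_zero]
    by_contra hcon
    rw [Finset.not_nonempty_iff_eq_empty] at hcon
    rw [hcon, Finset.sum_empty] at hxy
    rcases hxy with ⟨-, h2⟩ | ⟨-, h2⟩
    · exact h2 (dvd_zero _)
    · exact h2 (dvd_zero _)
  have hn3 : 3 ≤ n := by
    have := hn.two_le
    omega
  have hnR : (3 : ℝ) ≤ n := by exact_mod_cast hn3
  obtain ⟨s, hs⟩ : ∃ s, s = S.card := ⟨_, rfl⟩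
  have hsR : (1 : ℝ) ≤ s := by rw [hs]; exact_mod_cast hS
  have hl17 : 1 ≤ Real.log (17 / δ) := by
    rw [Real.le_log_iff_exp_le (by positivity)]
    have h1 : Real.exp 1 < 3 := Real.exp_one_lt_d9.trans (by norm_num)
    have h2 : (17 : ℝ) ≤ 17 / δ := by
      rw [le_div_iff₀ hδ]
      linarith
    linarith
  obtain ⟨H, hH⟩ : ∃ H, H = ⌈8 / δ⌉₊ := ⟨_, rfl⟩
  have hH1 : 8 / δ ≤ H := by rw [hH]; exact Nat.le_ceil _
  have hH2 : (H : ℝ) ≤ 9 / δ := by
    have h1 : (H : ℝ) < 8 / δ + 1 := by rw [hH]; exact Nat.ceil_lt_add_one (by positivity)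
    have h2 : (1 : ℝ) ≤ 1 / δ := by rw [le_div_iff₀ hδ]; linarith
    have h3 : 9 / δ = 8 / δ + 1 / δ := by ring
    linarith
  have hH8 : (8 : ℝ) ≤ H := by
    refine le_trans ?_ hH1
    rw [le_div_iff₀ hδ]
    linarith
  have hH0 : (0 : ℝ) < H := by linarith
  have hlH0 : 0 ≤ Real.log H := Real.log_nonneg (by linarith)
  have hlH : Real.log H ≤ Real.log (17 / δ) := by
    apply Real.log_le_log hH0
    refine hH2.trans ?_
    gcongr
    norm_num
  rw [← hs]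
  -- trivial cases
  by_cases hsn : n ≤ s
  · have h1 : Real.log n ≤ n := (Real.log_le_sub_one_of_pos (by linarith)).trans (by linarith)
    have h2 : (n : ℝ) ≤ s := by exact_mod_cast hsn
    have h3 : (s : ℝ) * 1 ≤ s * Real.log (17 / δ) :=
      mul_le_mul_of_nonneg_left hl17 (by linarith)
    linarith
  rw [not_le] at hsn
  by_cases hHn : n ≤ H ^ s
  · have h1 : Real.log n ≤ s * Real.log H := by
      rw [← Real.log_pow]
      apply Real.log_le_log (by linarith)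
      exact_mod_cast hHn
    have h2 : (s : ℝ) * Real.log H ≤ s * Real.log (17 / δ) :=
      mul_le_mul_of_nonneg_left hlH (by linarith)
    have h3 : 0 ≤ (s : ℝ) * Real.log (17 / δ) := by positivity
    linarith
  rw [not_le] at hHn
  -- the bound for `d`
  have hHN : 1 ≤ H := by
    have : (1 : ℝ) ≤ H := by linarith
    exact_mod_cast this
  have hb := both hn hn2 h S u u' H d hHN (by rw [← hs]; exact hHn) hu hd hxy
  rw [← hs] at hb
  set ε : ℝ := 1 + √2 with hε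
  have hsq : (1.4 : ℝ) < √2 := by
    rw [Real.lt_sqrt (by norm_num)]
    norm_num
  have hsq' : √2 < (1.5 : ℝ) := by
    rw [Real.sqrt_lt' (by norm_num)]
    norm_num
  have hε1 : 1 < ε := by linarith
  have hε0 : 0 < ε := by linarith
  have hlε : 3 / 4 ≤ Real.log ε := by
    rw [Real.le_log_iff_exp_le hε0]
    have h1 : Real.exp (3 / 4) = Real.exp 1 ^ (3 / 4 : ℝ) := by
      rw [← Real.exp_mul]
      norm_num
    have h2 : Real.exp (3 / 4) ^ 4 ≤ ε ^ 4 := by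
      rw [← Real.exp_nat_mul]
      have h3 : ((4 : ℕ) : ℝ) * (3 / 4) = ((3 : ℕ) : ℝ) * 1 := by norm_num
      rw [h3, Real.exp_nat_mul]
      have h4 : Real.exp 1 ^ 3 ≤ (2.72 : ℝ) ^ 3 :=
        pow_le_pow_left₀ (Real.exp_pos 1).le (Real.exp_one_lt_d9.le.trans (by norm_num)) 3
      have h5 : (2.4 : ℝ) ^ 4 ≤ ε ^ 4 := pow_le_pow_left₀ (by norm_num) (by linarith) 4
      have h6 : (2.72 : ℝ) ^ 3 ≤ 2.4 ^ 4 := by norm_num
      linarith
    exact (pow_le_pow_iff_left₀ (Real.exp_pos _).le hε0.le (by norm_num)).1 h2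
  have hlε1 : Real.log ε ≤ 1 := by
    rw [Real.log_le_iff_le_exp hε0]
    have := Real.exp_one_gt_d9
    linarith
  obtain ⟨G, hG⟩ : ∃ G : ℝ, G = ((H ^ s : ℕ) : ℝ) := ⟨_, rfl⟩
  have hG0 : 0 < G := by
    rw [hG]
    exact_mod_cast pow_pos hHN s
  obtain ⟨A, hA⟩ : ∃ A : ℝ, A = 8 * s * n := ⟨_, rfl⟩
  have hA1 : 1 ≤ A := by
    rw [hA]
    nlinarith
  have hlA0 : 0 ≤ Real.log A := Real.log_nonneg hA1
  have hnH : ((n / H : ℕ) : ℝ) ≤ δ * n / 8 := by
    have h1 : ((n / H : ℕ) : ℝ) ≤ n / H := Nat.cast_div_le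
    have h2 : (n : ℝ) / H ≤ δ * n / 8 := by
      rw [div_le_iff₀ hH0]
      have h3 : 8 ≤ δ * H := by
        rw [div_le_iff₀ hδ] at hH1
        linarith
      nlinarith
    linarith
  have h2nH : ((2 * n / H : ℕ) : ℝ) ≤ δ * n / 4 := by
    have h1 : ((2 * n / H : ℕ) : ℝ) ≤ ((2 * n : ℕ) : ℝ) / H := Nat.cast_div_le
    have h2 : ((2 * n : ℕ) : ℝ) / H ≤ δ * n / 4 := by
      rw [div_le_iff₀ hH0]
      have h3 : 8 ≤ δ * H := by
        rw [div_le_iff₀ hδ] at hH1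
        linarith
      push_cast
      nlinarith
    linarith
  have hld : δ * n * Real.log ε ≤ Real.log d := by
    rw [← Real.log_rpow hε0]
    exact Real.log_le_log (by positivity) hdδ
  have hd0 : (0 : ℝ) < d := lt_of_lt_of_le (by positivity) hdδ
  have hlog : Real.log d ≤ 2 * G * Real.log A + (δ * n / 4 + 2 * G) * Real.log ε := by
    have hlε0 : 0 ≤ Real.log ε := by linarith
    rcases hb with hb | hb
    · have h1 := Real.log_le_log hd0 hb
      rw [← hA, Real.log_pow, Real.log_mul (by positivity) (by positivity), Real.log_pow,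
        Real.log_pow] at h1
      push_cast at h1
      have h2 : (H : ℝ) ^ s = G := by rw [hG]; push_cast; rfl
      rw [h2] at h1
      have h3 := mul_le_mul_of_nonneg_right hnH hlε0
      linarith
    · have h1 := Real.log_le_log hd0 hb
      rw [← hA, Real.log_mul (by positivity) (by positivity), Real.log_pow,
        Real.log_pow] at h1
      push_cast at h1
      have h2 : (H : ℝ) ^ s = G := by rw [hG]; push_cast; rfl
      rw [h2] at h1
      have h3 := mul_le_mul_of_nonneg_right h2nH hlε0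
      have h4 := mul_nonneg hG0.le hlA0
      have h5 := mul_nonneg hG0.le hlε0
      linarith
  -- `n ≪ G √n`
  have hsqn : 1 ≤ √(n : ℝ) := by
    rw [Real.one_le_sqrt]
    linarith
  have hsqn2 : √(n : ℝ) * √(n : ℝ) = n := Real.mul_self_sqrt (by linarith)
  have hlogn : Real.log n ≤ 2 * √(n : ℝ) := by
    have h1 : Real.log n = 2 * Real.log √(n : ℝ) := by
      conv_lhs => rw [← hsqn2]
      rw [Real.log_mul (by positivity) (by positivity)]
      ring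
    have h2 : Real.log √(n : ℝ) ≤ √(n : ℝ) - 1 := Real.log_le_sub_one_of_pos (by linarith)
    linarith
  have hlogA : Real.log A ≤ 3 + 2 * Real.log n := by
    have h1 : A ≤ 8 * (n : ℝ) ^ 2 := by
      rw [hA]
      have : (s : ℝ) ≤ n := by exact_mod_cast hsn.le
      nlinarith
    have h2 : Real.log A ≤ Real.log (8 * (n : ℝ) ^ 2) := Real.log_le_log (by linarith) h1
    rw [Real.log_mul (by norm_num) (by positivity), Real.log_pow] at h2
    have h3 : Real.log 8 ≤ 3 := by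
      have h4 : (8 : ℝ) = 2 ^ 3 := by norm_num
      rw [h4, Real.log_pow]
      have := Real.log_two_lt_d9
      push_cast
      linarith
    push_cast at h2
    linarith
  have hmain : δ * √(n : ℝ) ≤ 32 * G := by
    have h1 : 3 / 4 * (δ * n) * Real.log ε ≤ 2 * G * (Real.log A + Real.log ε) := by
      linarith
    have h2 : Real.log A + Real.log ε ≤ 8 * √(n : ℝ) := by
      linarith
    have h3 : 9 / 16 * (δ * n) ≤ 2 * G * (8 * √(n : ℝ)) := by
      have h4 : 2 * G * (Real.log A + Real.log ε) ≤ 2 * G * (8 * √(n : ℝ)) :=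
        mul_le_mul_of_nonneg_left h2 (by positivity)
      have h5 : 3 / 4 * (δ * n) * (3 / 4) ≤ 3 / 4 * (δ * n) * Real.log ε :=
        mul_le_mul_of_nonneg_left hlε (by positivity)
      linarith
    have h4 : (δ * √(n : ℝ)) * √(n : ℝ) ≤ (32 * G) * √(n : ℝ) := by
      have h5 : (δ * √(n : ℝ)) * √(n : ℝ) = δ * n := by rw [mul_assoc, hsqn2]
      rw [h5]
      have h6 : 0 ≤ G * √(n : ℝ) := by positivity
      linarith
    exact le_of_mul_le_mul_right h4 (by linarith)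
  -- the conclusion
  have h1 : Real.log (δ * √(n : ℝ)) ≤ Real.log (32 * G) := Real.log_le_log (by positivity) hmain
  rw [Real.log_mul (by positivity) (by positivity), Real.log_mul (by norm_num) (by positivity),
    Real.log_sqrt (by linarith)] at h1
  have h2 : Real.log G = s * Real.log H := by
    rw [hG]
    push_cast
    rw [Real.log_pow]
  have h3 : Real.log H ≤ Real.log 9 - Real.log δ := by
    rw [← Real.log_div (by norm_num) hδ.ne']
    exact Real.log_le_log hH0 hH2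
  have h4 : Real.log (17 / δ) = Real.log 17 - Real.log δ :=
    Real.log_div (by norm_num) hδ.ne'
  have h5 : Real.log δ ≤ 0 := Real.log_nonpos hδ.le hδ1
  have h6 : Real.log 32 + Real.log 9 ≤ 2 * Real.log 17 := by
    rw [← Real.log_mul (by norm_num) (by norm_num)]
    have h7 : 2 * Real.log 17 = Real.log (17 ^ 2) := by
      rw [Real.log_pow]
      norm_num
    rw [h7]
    exact Real.log_le_log (by norm_num) (by norm_num)
  have h7 : (0 : ℝ) ≤ Real.log 32 := Real.log_nonneg (by norm_num)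
  rw [h2] at h1
  -- `log n ≤ 2 (log 32 - log δ) + 2 s log H ≤ 2 s (log 32 + log 9 - 2 log δ)`
  have h8 : Real.log n ≤ 2 * s * (Real.log 32 - Real.log δ) + 2 * s * Real.log H := by
    have h9 := mul_le_mul_of_nonneg_right hsR (show 0 ≤ Real.log 32 - Real.log δ by linarith)
    linarith
  have h9 : 2 * (s : ℝ) * (Real.log 32 - Real.log δ) + 2 * s * Real.log H ≤
      2 * s * (2 * Real.log 17 - 2 * Real.log δ) := by
    have h10 : (Real.log 32 - Real.log δ) + Real.log H ≤ 2 * Real.log 17 - 2 * Real.log δ := by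
      linarith
    calc 2 * (s : ℝ) * (Real.log 32 - Real.log δ) + 2 * s * Real.log H =
        2 * s * ((Real.log 32 - Real.log δ) + Real.log H) := by ring
      _ ≤ _ := mul_le_mul_of_nonneg_left h10 (by linarith)
  rw [h4]
  linarith

theorem pell' (n : ℕ) : ((1 : ℝ) - √2) ^ n = (V 2 n : ℝ) / 2 - U 2 n * √2 := by
  have h2 : √(2 : ℝ) ^ 2 = 2 := Real.sq_sqrt (by norm_num)
  have h : ((1 : ℝ) - √2) ^ n = (V 2 n : ℝ) / 2 - U 2 n * √2 ∧
      ((1 : ℝ) - √2) ^ (n + 1) = (V 2 (n + 1) : ℝ) / 2 - U 2 (n + 1) * √2 := by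
    induction n with
    | zero => simp [V, U]
    | succ n ih =>
      refine ⟨ih.2, ?_⟩
      have e : ((1 : ℝ) - √2) ^ (n + 1 + 1) = 2 * (1 - √2) ^ (n + 1) + (1 - √2) ^ n := by
        have : ((1 : ℝ) - √2) ^ 2 = 2 * (1 - √2) + 1 := by linear_combination h2
        rw [show n + 1 + 1 = n + 2 from rfl, pow_add, this]
        ring
      rw [e, ih.1, ih.2, V, U]
      push_cast
      ring
  exact h.1

/-- The size of `x` and `y`. -/
theorem size {n : ℕ} (hn : 3 ≤ n) (hodd : Odd n) {x y : ℤ}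
    (h : (x : ℝ) + y * √2 = (1 + √2) ^ n) :
    (1 + √2) ^ ((n : ℝ) / 2) ≤ x ∧ (1 + √2) ^ ((n : ℝ) / 2) ≤ y := by
  obtain ⟨hyU, hxV⟩ := ident h
  have h' : (x : ℝ) - y * √2 = (1 - √2) ^ n := by
    rw [pell', hyU]
    have : (2 : ℝ) * x = V 2 n := by exact_mod_cast hxV
    linarith
  have h2 : √(2 : ℝ) ^ 2 = 2 := Real.sq_sqrt (by norm_num)
  have hsq : (1.4 : ℝ) < √2 := by
    rw [Real.lt_sqrt (by norm_num)]
    norm_num
  have hsq' : √2 < (1.5 : ℝ) := by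
    rw [Real.sqrt_lt' (by norm_num)]
    norm_num
  obtain ⟨t, ht⟩ : ∃ t : ℝ, t = (1 + √2) ^ ((n : ℝ) / 2) := ⟨_, rfl⟩
  have ht0 : 0 < t := by rw [ht]; positivity
  have ht2 : t ^ 2 = (1 + √2) ^ n := by
    rw [ht, ← Real.rpow_natCast, ← Real.rpow_mul (by positivity)]
    rw [show (n : ℝ) / 2 * ((2 : ℕ) : ℝ) = n by push_cast; ring, Real.rpow_natCast]
  have h3 : (9 : ℝ) ≤ t ^ 2 := by
    rw [ht2]
    calc (9 : ℝ) ≤ (2.4 : ℝ) ^ 3 := by norm_num
      _ ≤ (1 + √2) ^ 3 := pow_le_pow_left₀ (by norm_num) (by linarith) 3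
      _ ≤ (1 + √2) ^ n := pow_le_pow_right₀ (by linarith) hn
  have ht3 : 3 ≤ t := by nlinarith
  -- the conjugate is negative and small
  have h4 : -1 ≤ (1 - √2) ^ n ∧ (1 - √2) ^ n ≤ 0 := by
    have h5 : (1 - √2) ^ n = -(√2 - 1) ^ n := by
      rw [← hodd.neg_pow]
      congr 1
      ring
    have h6 : (√2 - 1) ^ n ≤ 1 := pow_le_one₀ (by linarith) (by linarith)
    have h7 : 0 ≤ (√2 - 1) ^ n := pow_nonneg (by linarith) n
    rw [h5]
    constructor <;> linarith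
  rw [← ht]
  constructor
  · have h5 : 2 * (x : ℝ) ≥ t ^ 2 - 1 := by rw [ht2]; linarith [h4.1]
    nlinarith
  · have h5 : 2 * (y : ℝ) * √2 ≥ t ^ 2 := by rw [ht2]; linarith [h4.2]
    have h6 : 0 < (y : ℝ) := by
      by_contra hcon
      rw [not_lt] at hcon
      nlinarith
    nlinarith

theorem gcd_prod {K : ℕ} (z : ℕ) (w : Fin K → ℕ) (T : Finset (Fin K)) :
    Nat.gcd z (∏ k ∈ T, w k) ∣ ∏ k ∈ T, Nat.gcd z (w k) := by
  classical
  induction T using Finset.induction_on with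
  | empty => simp
  | insert a T ha ih =>
    rw [Finset.prod_insert ha, Finset.prod_insert ha]
    exact (Nat.gcd_mul_right_dvd_mul_gcd _ _ _).trans (mul_dvd_mul_left _ ih)

/-- Euclid's lemma for sparse integers. -/
theorem euclid {n : ℕ} (hn : n.Prime) (hn2 : n ≠ 2) {x y : ℤ}
    (h : (x : ℝ) + y * √2 = (1 + √2) ^ n) {K : ℕ} (hK : 1 ≤ K) (s : ℕ) (S : Fin K → Finset ℕ)
    (u u' : Fin K → ℕ → ℤ) (hS : ∀ k, (S k).card ≤ s)
    (hu : ∀ k, ∀ i ∈ S k, |u k i| ≤ n ∧ |u' k i| ≤ n) {z : ℤ} (hz : z = x ∨ z = y)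
    (hd : z ∣ ∏ k, ∑ i ∈ S k, (u k i * U 2 i + u' k i * U 2 (i + 1))) :
    (∃ k, z ∣ ∑ i ∈ S k, (u k i * U 2 i + u' k i * U 2 (i + 1))) ∨
      Real.log n ≤ 4 * s * Real.log (34 * K) := by
  classical
  by_cases hcon : ∃ k, z ∣ ∑ i ∈ S k, (u k i * U 2 i + u' k i * U 2 (i + 1))
  · exact Or.inl hcon
  right
  push Not at hcon
  set w : Fin K → ℤ := fun k => ∑ i ∈ S k, (u k i * U 2 i + u' k i * U 2 (i + 1)) with hw
  have hne : (Finset.univ : Finset (Fin K)).Nonempty := ⟨⟨0, hK⟩, Finset.mem_univ _⟩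
  set d : Fin K → ℕ := fun k => Nat.gcd z.natAbs (w k).natAbs with hdd
  obtain ⟨k, -, hk⟩ := Finset.exists_max_image Finset.univ d hne
  have hn3 : 3 ≤ n := by
    have := hn.two_le
    omega
  have hodd : Odd n := hn.odd_of_ne_two hn2
  have hsz : (1 + √2) ^ ((n : ℝ) / 2) ≤ (z : ℝ) := by
    obtain ⟨h1, h2⟩ := size hn3 hodd h
    rcases hz with rfl | rfl
    · exact h1
    · exact h2
  have hz0 : (0 : ℝ) < z := lt_of_lt_of_le (by positivity) hsz
  have hz0' : 0 < z := by exact_mod_cast hz0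
  have hznat : ((z.natAbs : ℕ) : ℤ) = z := Int.natAbs_of_nonneg hz0'.le
  have hznatR : ((z.natAbs : ℕ) : ℝ) = z := by
    rw [Nat.cast_natAbs, Int.cast_abs, abs_of_pos hz0]
  have hzd : z.natAbs ∣ ∏ j, d j := by
    have h1 : z.natAbs ∣ ∏ j, (w j).natAbs := by
      have h2 := Int.natAbs_dvd_natAbs.2 hd
      have h3 : (∏ k, w k).natAbs = ∏ k, (w k).natAbs := map_prod Int.natAbsHom _ _
      rwa [← h3]
    have h3 := gcd_prod z.natAbs (fun j => (w j).natAbs) Finset.univ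
    rwa [Nat.gcd_eq_left h1] at h3
  have hdpos : ∀ j, 0 < d j := fun j => Nat.gcd_pos_of_pos_left _ (by omega)
  have hle : z.natAbs ≤ d k ^ K := by
    refine (Nat.le_of_dvd (Finset.prod_pos fun j _ => hdpos j) hzd).trans ?_
    calc ∏ j, d j ≤ ∏ _j : Fin K, d k := Finset.prod_le_prod' fun j hj => hk j hj
      _ = d k ^ K := by rw [Finset.prod_const, Finset.card_univ, Fintype.card_fin]
  have hKR : (1 : ℝ) ≤ K := by exact_mod_cast hK
  have hdk : (1 + √2) ^ ((1 / (2 * K) : ℝ) * n) ≤ (d k : ℝ) := by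
    have h1 : ((1 + √2) ^ ((1 / (2 * K) : ℝ) * n)) ^ K ≤ (d k : ℝ) ^ K := by
      rw [← Real.rpow_natCast, ← Real.rpow_mul (by positivity)]
      have h2 : (1 / (2 * K) : ℝ) * n * (K : ℕ) = n / 2 := by
        field_simp
      rw [h2]
      refine hsz.trans ?_
      rw [← hznatR]
      exact_mod_cast hle
    exact (pow_le_pow_iff_left₀ (by positivity) (Nat.cast_nonneg _) (by omega)).1 h1
  have hdz : ((d k : ℕ) : ℤ) ∣ z := by
    rw [← hznat]
    exact Int.natCast_dvd_natCast.2 (Nat.gcd_dvd_left _ _)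
  have hdw : ((d k : ℕ) : ℤ) ∣ w k := by
    rw [← Int.dvd_natAbs]
    exact Int.natCast_dvd_natCast.2 (Nat.gcd_dvd_right _ _)
  have hfin := digits hn hn2 h (δ := 1 / (2 * K)) (by positivity)
    (by rw [div_le_one (by positivity)]; linarith) (d k) hdk (S k) (u k) (u' k) (hu k) hdw
    (by
      rcases hz with rfl | rfl
      · exact Or.inl ⟨hdz, hcon k⟩
      · exact Or.inr ⟨hdz, hcon k⟩)
  have e1 : (17 : ℝ) / (1 / (2 * K)) = 34 * K := by
    field_simp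
    ring
  rw [e1] at hfin
  refine hfin.trans ?_
  have h1 : ((S k).card : ℝ) ≤ s := by exact_mod_cast hS k
  have h2 : 0 ≤ Real.log (34 * K) := Real.log_nonneg (by linarith)
  nlinarith

/-- **Main theorem.** Let `P_i` be the Pell numbers. We call `W = ∑_{i ∈ S} (u_i P_i + u'_i P_(i+1))` a
sum with `|S|` blocks.

(1) Let `n` be an odd prime and `x + y √2 = (1 + √2) ^ n` (so `x ^ 2 - 2 y ^ 2 = -1`), and let
`z = x` or `z = y`. If `z` divides a product of `K ≥ 1` integers, each of which is a sum with at most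
`s` blocks and integers `|u_i|, |u'_i| ≤ n`, then `z` divides one of them, or
`log n ≤ 4 s log (34 K)`.

(2) Let `n`, `x`, `y` be as in (1), let `0 < δ ≤ 1` and let `d ≥ (1 + √2) ^ (δ n)` be a divisor of `x`
or of `y`. Let `W` be a sum with `|S|` blocks and integers `|u_i|, |u'_i| ≤ n` which is a
multiple of `d`, but not a multiple of `x`, or of `y`, respectively. Then
`log n ≤ 4 |S| log (17 / δ)`.

(3) Let `a ≥ 1` be an integer such that `V_r(b) ≠ a` for all `b ≥ 1` and all odd `r ≥ 3`. Let `p` be an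
odd prime, `W = ∑_{i ∈ S} (u_i U_i + u'_i U_(i+1))` with `U_i = U_i(a, -1)` and integers `u_i`, `u'_i`,
`A = ∑ (|u_i| + (a + 1) |u'_i|)`, and `H ≥ 1`, `H ^ |S| < p`, `ε = (a + √(a ^ 2 + 4)) / 2`. Every common
divisor `d` of `W` and `U_p` is at most `(2 A) ^ (H ^ |S|) ε ^ (⌊2 p / H⌋ + H ^ |S|)`, unless `U_p`
divides `W`, and every common divisor `d` of `W` and `V_p` is at most
`((2 A) ^ (H ^ |S|) ε ^ (⌊p / H⌋ + H ^ |S|)) ^ 2`, unless `V_p` divides `2 W`. -/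
theorem result :
    (∀ (n : ℕ) (x y : ℤ), n.Prime → n ≠ 2 → (x : ℝ) + y * √2 = (1 + √2) ^ n →
      ∀ z : ℤ, (z = x ∨ z = y) → ∀ K s : ℕ, 1 ≤ K → ∀ (S : Fin K → Finset ℕ)
      (u u' : Fin K → ℕ → ℤ), (∀ k, (S k).card ≤ s) →
      (∀ k, ∀ i ∈ S k, |u k i| ≤ n ∧ |u' k i| ≤ n) →
      z ∣ ∏ k, ∑ i ∈ S k, (u k i * U 2 i + u' k i * U 2 (i + 1)) →
      (∃ k, z ∣ ∑ i ∈ S k, (u k i * U 2 i + u' k i * U 2 (i + 1))) ∨
        Real.log n ≤ 4 * s * Real.log (34 * K)) ∧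
    (∀ (n : ℕ) (x y : ℤ), n.Prime → n ≠ 2 → (x : ℝ) + y * √2 = (1 + √2) ^ n →
      ∀ δ : ℝ, 0 < δ → δ ≤ 1 → ∀ d : ℕ, (1 + √2) ^ (δ * n) ≤ (d : ℝ) →
      ∀ (S : Finset ℕ) (u u' : ℕ → ℤ), (∀ i ∈ S, |u i| ≤ n ∧ |u' i| ≤ n) →
      (d : ℤ) ∣ ∑ i ∈ S, (u i * U 2 i + u' i * U 2 (i + 1)) →
      (((d : ℤ) ∣ x ∧ ¬ x ∣ ∑ i ∈ S, (u i * U 2 i + u' i * U 2 (i + 1))) ∨
        ((d : ℤ) ∣ y ∧ ¬ y ∣ ∑ i ∈ S, (u i * U 2 i + u' i * U 2 (i + 1)))) →
      Real.log n ≤ 4 * S.card * Real.log (17 / δ)) ∧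
    (∀ a : ℤ, 1 ≤ a → (∀ (b : ℤ) (r : ℕ), 1 ≤ b → 2 ≤ r → Odd r → V b r ≠ a) →
      ∀ p : ℕ, p.Prime → p ≠ 2 → ∀ (S : Finset ℕ) (u u' : ℕ → ℤ) (H d : ℕ), 1 ≤ H →
      H ^ S.card < p → (d : ℤ) ∣ ∑ i ∈ S, (u i * U a i + u' i * U a (i + 1)) →
      ((d : ℤ) ∣ U a p → ¬ U a p ∣ ∑ i ∈ S, (u i * U a i + u' i * U a (i + 1)) →
        (d : ℝ) ≤ (2 * (∑ i ∈ S, (|u i| + (a + 1) * |u' i|) : ℤ)) ^ (H ^ S.card) *
          ((a + √((a : ℝ) ^ 2 + 4)) / 2) ^ (2 * p / H + H ^ S.card)) ∧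
      ((d : ℤ) ∣ V a p → ¬ V a p ∣ 2 * ∑ i ∈ S, (u i * U a i + u' i * U a (i + 1)) →
        (d : ℝ) ≤ ((2 * (∑ i ∈ S, (|u i| + (a + 1) * |u' i|) : ℤ)) ^ (H ^ S.card) *
          ((a + √((a : ℝ) ^ 2 + 4)) / 2) ^ (p / H + H ^ S.card)) ^ 2)) :=
  ⟨fun _ _ _ hn hn2 h _ hz _ s hK S u u' hS hu hd => euclid hn hn2 h hK s S u u' hS hu hz hd,
    fun _ _ _ hn hn2 h _ hδ hδ1 d hdδ S u u' hu hd hxy =>
      digits hn hn2 h hδ hδ1 d hdδ S u u' hu hd hxy,
    fun _ ha hV _ hp hp2 S u u' H d hH hHp hd => general ha hV hp hp2 S u u' H d hH hHp hd⟩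

end Pool.Agent.Results.MP_927e73_nt.SparseMultiples
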